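import Pool.Agent.Q276.HL.Stm
import Pool.Agent.W33.HZ.CLS
import Pool.Agent.W563.HZ.REL

/-! HL-CLS4: the points in a residue class (for helper276, project HL). -/

set_option autoImplicit false

namespace Pool.Agent.Q13.HL

open Polynomial Pool.Agent.W223.HZ Pool.Agent.W33.HZ Pool.Agent.Q276.HL

theorem GP4_natDegree (a b c d e₁ : ℤ) (A B : ℤ[X]) (m : ℕ) (hA : A.natDegree < m)
    (hB : B.natDegree < m) : (GP4 a b c d e₁ A B).natDegree ≤ 4 * m := by
  have hA' : A.natDegree ≤ m - 1 := by omega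
  have hB' : B.natDegree ≤ m - 1 := by omega
  have hC : ∀ e : ℤ, (C e : ℤ[X]).natDegree ≤ 0 := fun e => (natDegree_C e).le
  have h1 : (C a * B ^ 4 : ℤ[X]).natDegree ≤ 0 + 4 * (m - 1) :=
    natDegree_mul_le_of_le (hC a) (natDegree_pow_le_of_le 4 hB')
  have h4 : (4 : ℤ[X]).natDegree ≤ 0 := (natDegree_ofNat 4).le
  have h6 : (6 : ℤ[X]).natDegree ≤ 0 := (natDegree_ofNat 6).le
  have h2 : (4 * C b * B ^ 3 * A : ℤ[X]).natDegree ≤ 0 + 0 + 3 * (m - 1) + (m - 1) :=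
    natDegree_mul_le_of_le (natDegree_mul_le_of_le (natDegree_mul_le_of_le h4 (hC b))
      (natDegree_pow_le_of_le 3 hB')) hA'
  have h3 : (6 * C c * B ^ 2 * A ^ 2 : ℤ[X]).natDegree ≤ 0 + 0 + 2 * (m - 1) + 2 * (m - 1) :=
    natDegree_mul_le_of_le (natDegree_mul_le_of_le (natDegree_mul_le_of_le h6 (hC c))
      (natDegree_pow_le_of_le 2 hB')) (natDegree_pow_le_of_le 2 hA')
  have h5 : (4 * C d * B * A ^ 3 : ℤ[X]).natDegree ≤ 0 + 0 + (m - 1) + 3 * (m - 1) :=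
    natDegree_mul_le_of_le (natDegree_mul_le_of_le (natDegree_mul_le_of_le h4 (hC d)) hB')
      (natDegree_pow_le_of_le 3 hA')
  have h7 : ((C e₁ + X) * A ^ 4 : ℤ[X]).natDegree ≤ 1 + 4 * (m - 1) := by
    refine natDegree_mul_le_of_le ?_ (natDegree_pow_le_of_le 4 hA')
    exact natDegree_add_le_of_degree_le ((hC e₁).trans (Nat.zero_le 1)) natDegree_X_le
  unfold GP4
  refine natDegree_add_le_of_degree_le (natDegree_sub_le_of_le (natDegree_add_le_of_degree_le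
    (natDegree_sub_le_of_le (h1.trans ?_) (h2.trans ?_) |>.trans (max_le le_rfl le_rfl))
    (h3.trans ?_)) (h5.trans ?_) |>.trans (max_le le_rfl le_rfl)) (h7.trans ?_)
  all_goals omega

theorem cls4 (hP : StmtPAD4) (hN : StmtNFO) : StmtCLS4 := by
  intro a b c d e₁ ha hfour A B m hAB hA hB p m' hp hp3 hm' L Gm hL hGm hlt 𝒯 g hg hτL hgG hpg hpp
  have hR : StmtREL := Pool.Agent.W563.HZ.REL.t
  classical
  rcases 𝒯.eq_empty_or_nonempty with rfl | ⟨τ₀, hτ₀⟩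
  · simp
  have hL0 : (0 : ℝ) < L := by linarith
  have hG0 : (0 : ℝ) < Gm := by linarith
  -- the matrix
  set Am : {τ // τ ∈ 𝒯} → (Fin m' ⊕ Fin m') → ℤ := fun τ =>
    Sum.elim (fun j : Fin m' => τ.1 ^ (j : ℕ)) (fun j : Fin m' => g τ.1 * τ.1 ^ (j : ℕ)) with hAm
  set vv : Fin m' ⊕ Fin m' → ℝ := Sum.elim (fun j : Fin m' => L ^ (j : ℕ))
    (fun j : Fin m' => Gm * L ^ (j : ℕ)) with hvv
  have hvpos : ∀ j, 0 < vv j := by
    rintro (j | j)
    · exact pow_pos hL0 _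
    · exact mul_pos hG0 (pow_pos hL0 _)
  have hent : ∀ τ j, |(Am τ j : ℝ)| ≤ vv j := by
    rintro ⟨τ, hτ⟩ (j | j)
    · show |((τ ^ (j : ℕ) : ℤ) : ℝ)| ≤ L ^ (j : ℕ)
      push_cast
      rw [abs_pow]
      exact pow_le_pow_left₀ (abs_nonneg _) (hτL τ hτ) _
    · show |((g τ * τ ^ (j : ℕ) : ℤ) : ℝ)| ≤ Gm * L ^ (j : ℕ)
      push_cast
      rw [abs_mul, abs_pow]
      exact mul_le_mul (hgG τ hτ) (pow_le_pow_left₀ (abs_nonneg _) (hτL τ hτ) _)
        (pow_nonneg (abs_nonneg _) _) hG0.le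
  have hprod : ∏ j, vv j = (Gm * L ^ (m' - 1)) ^ m' := by
    rw [Fintype.prod_sum_type]
    have h1 : ∏ j : Fin m', vv (Sum.inl j) = ∏ j : Fin m', L ^ (j : ℕ) := rfl
    have h2 : ∏ j : Fin m', vv (Sum.inr j) = Gm ^ m' * ∏ j : Fin m', L ^ (j : ℕ) := by
      show ∏ j : Fin m', Gm * L ^ (j : ℕ) = _
      rw [Finset.prod_mul_distrib, Finset.prod_const, Finset.card_univ, Fintype.card_fin]
    rw [h1, h2, mul_pow, ← Pool.Agent.W33.HZ.prod_pow]
    ring
  have hdet : ∀ f : (Fin m' ⊕ Fin m') → {τ // τ ∈ 𝒯},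
      Matrix.det (Matrix.of fun i j => Am (f i) j) = 0 := by
    intro f
    have h1 := hP p hp hp3 (GP4 a b c d e₁ A B) m' hm' (fun i => (f i).1) (fun i => g (f i).1)
      (fun i => hg _ (f i).2) (fun i => hpg _ (f i).2) (fun i j => (hpp _ (f i).2 _ (f j).2).1)
      (fun i j => (hpp _ (f i).2 _ (f j).2).2)
    have h2 : (Matrix.of fun i : Fin m' ⊕ Fin m' =>
        Sum.elim (fun j : Fin m' => (f i).1 ^ (j : ℕ)) (fun j : Fin m' => g (f i).1 *
          (f i).1 ^ (j : ℕ))) = Matrix.of fun i j => Am (f i) j := rfl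
    rw [h2] at h1
    refine Int.eq_zero_of_abs_lt_dvd h1 ?_
    have h3 := det_col_bound (Matrix.of fun i j => Am (f i) j) vv hvpos
      (fun i j => hent (f i) j)
    rw [hprod, Fintype.card_sum, Fintype.card_fin] at h3
    have h4 : (((m' + m').factorial : ℕ) : ℝ) ≤ ((2 * (m' : ℝ)) ^ 2) ^ m' := by
      have h5 : (m' + m').factorial ≤ (m' + m') ^ (m' + m') := Nat.factorial_le_pow _
      have h6 : (((m' + m').factorial : ℕ) : ℝ) ≤ (((m' + m') ^ (m' + m') : ℕ) : ℝ) := by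
        exact_mod_cast h5
      refine h6.trans (le_of_eq ?_)
      push_cast
      rw [← pow_mul, two_mul, two_mul]
    have h7 : |((Matrix.of fun i j => Am (f i) j).det : ℝ)| <
        (((p : ℤ) ^ (m' * (2 * m' - 1)) : ℤ) : ℝ) := by
      calc |((Matrix.of fun i j => Am (f i) j).det : ℝ)|
          ≤ (((m' + m').factorial : ℕ) : ℝ) * (Gm * L ^ (m' - 1)) ^ m' := h3
        _ ≤ ((2 * (m' : ℝ)) ^ 2) ^ m' * (Gm * L ^ (m' - 1)) ^ m' :=
            mul_le_mul_of_nonneg_right h4 (by positivity)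
        _ = ((2 * (m' : ℝ)) ^ 2 * Gm * L ^ (m' - 1)) ^ m' := by
            rw [← mul_pow, mul_assoc]
        _ < ((p : ℝ) ^ (2 * m' - 1)) ^ m' :=
            pow_lt_pow_left₀ hlt (by positivity) (by omega)
        _ = (((p : ℤ) ^ (m' * (2 * m' - 1)) : ℤ) : ℝ) := by
            push_cast
            rw [← pow_mul, Nat.mul_comm]
    exact_mod_cast h7
  -- the relation
  have hH1 : (1 : ℝ) ≤ Gm * L ^ m' := one_le_mul_of_one_le_of_one_le hGm (one_le_pow₀ hL)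
  obtain ⟨v, hv0, hvs, -⟩ := hR Am (Gm * L ^ m') hH1 ⟨⟨τ₀, hτ₀⟩⟩ (by
    intro τ j
    refine (hent τ j).trans ?_
    rcases j with j | j
    · show L ^ (j : ℕ) ≤ Gm * L ^ m'
      calc L ^ (j : ℕ) ≤ L ^ m' := pow_le_pow_right₀ hL j.2.le
        _ ≤ Gm * L ^ m' := le_mul_of_one_le_left (by positivity) hGm
    · show Gm * L ^ (j : ℕ) ≤ Gm * L ^ m'
      exact mul_le_mul_of_nonneg_left (pow_le_pow_right₀ hL j.2.le) hG0.le) hdet
  set P₁ : ℤ[X] := pl fun j : Fin m' => v (Sum.inl j) with hP₁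
  set P₂ : ℤ[X] := pl fun j : Fin m' => v (Sum.inr j) with hP₂
  have hP0 : P₁ ≠ 0 ∨ P₂ ≠ 0 := by
    by_contra hc
    push Not at hc
    apply hv0
    ext j
    rcases j with j | j
    · have := pl_coeff (fun j : Fin m' => v (Sum.inl j)) j
      rw [← hP₁, hc.1, coeff_zero] at this
      exact this.symm
    · have := pl_coeff (fun j : Fin m' => v (Sum.inr j)) j
      rw [← hP₂, hc.2, coeff_zero] at this
      exact this.symm
  have hW := hN a b c d e₁ ha hfour A B P₁ P₂ hAB hP0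
  have hroot : ∀ τ ∈ 𝒯, (P₁ ^ 4 - P₂ ^ 4 * GP4 a b c d e₁ A B).eval τ = 0 := by
    intro τ hτ
    have h1 := hvs ⟨τ, hτ⟩
    rw [Fintype.sum_sum_type] at h1
    have h2 : P₁.eval τ + g τ * P₂.eval τ = 0 := by
      rw [hP₁, hP₂, pl_eval, pl_eval, Finset.mul_sum, ← h1]
      congr 1
      · refine Finset.sum_congr rfl fun j _ => ?_
        show _ = τ ^ (j : ℕ) * v (Sum.inl j)
        ring
      · refine Finset.sum_congr rfl fun j _ => ?_
        show _ = g τ * τ ^ (j : ℕ) * v (Sum.inr j)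
        ring
    rw [eval_sub, eval_mul, eval_pow, eval_pow, ← hg τ hτ]
    have h3 : P₁.eval τ = -(g τ * P₂.eval τ) := by linarith
    rw [h3]
    ring
  have hdeg : (P₁ ^ 4 - P₂ ^ 4 * GP4 a b c d e₁ A B).natDegree ≤ 4 * m' + 4 * m := by
    refine natDegree_sub_le_of_le ?_ ?_ |>.trans (max_le le_rfl le_rfl)
    · exact (natDegree_pow_le_of_le 4 (pl_natDegree _)).trans (by omega)
    · exact natDegree_mul_le_of_le (natDegree_pow_le_of_le 4 (pl_natDegree _))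
        (GP4_natDegree a b c d e₁ A B m hA hB)
  refine le_trans (card_le_degree_of_subset_roots ?_) hdeg
  intro τ hτ
  rw [mem_roots hW]
  exact hroot τ hτ

end Pool.Agent.Q13.HL
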